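import Mathlib
import Pool.Agent.Helper65.RGDefs
import Pool.Agent.Helper65.RG7
import Pool.Agent.Helper57.KR.Fin
import Pool.Agent.Helper57.KR.Wt

namespace Pool.Agent.Results.MP_45ac3c_an.GrowthOrders

open Pool.Agent.Helper65.RG Asymptotics Filter

universe u

/-- `n ^ p = O((1 + n) ^ p)` for `p ≥ 0` -/
lemma le_succ {p : ℝ} (hp : 0 ≤ p) :
    (fun n : ℕ => (n : ℝ) ^ p) =O[atTop] fun n : ℕ => (1 + (n : ℝ)) ^ p := by
  apply IsBigO.of_bound 1
  filter_upwards with n
  rw [one_mul, Real.norm_of_nonneg (by positivity), Real.norm_of_nonneg (by positivity)]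
  exact Real.rpow_le_rpow (by positivity) (by linarith) hp

/-- `(1 + n) ^ p = O(n ^ p)` for `p ≥ 0` -/
lemma succ_le {p : ℝ} (hp : 0 ≤ p) :
    (fun n : ℕ => (1 + (n : ℝ)) ^ p) =O[atTop] fun n : ℕ => (n : ℝ) ^ p := by
  apply IsBigO.of_bound (2 ^ p)
  filter_upwards [eventually_ge_atTop 1] with n hn
  rw [Real.norm_of_nonneg (by positivity), Real.norm_of_nonneg (by positivity),
    ← Real.mul_rpow (by norm_num) (by positivity)]
  have hn' : (1 : ℝ) ≤ n := by exact_mod_cast hn
  exact Real.rpow_le_rpow (by positivity) (by linarith) hp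

/-- The possible orders of growth of the powers of Hilbert space operators under the resolvent
condition of order `α`. -/
theorem result :
    (∀ α : ℝ, 1 < α → ∀ a : ℕ → ℝ,
      ((∃ (H : Type u) (_ : NormedAddCommGroup H) (_ : InnerProductSpace ℂ H)
        (_ : CompleteSpace H) (T : H →L[ℂ] H), ResolventCondition α T ∧
          a =O[atTop] fun n : ℕ => ‖T ^ n‖) ↔
      a =O[atTop] fun n : ℕ => (n : ℝ) ^ α)) ∧
    (∀ a : ℕ → ℝ,
      ((∃ (H : Type u) (_ : NormedAddCommGroup H) (_ : InnerProductSpace ℂ H)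
        (_ : CompleteSpace H) (T : H →L[ℂ] H), ResolventCondition 1 T ∧
          a =O[atTop] fun n : ℕ => ‖T ^ n‖) ↔
      ∃ ε : ℝ, 0 < ε ∧ a =O[atTop] fun n : ℕ => (n : ℝ) ^ (1 - ε))) := by
  refine ⟨fun α hα a => ⟨?_, ?_⟩, fun a => ⟨?_, ?_⟩⟩
  · rintro ⟨H, _, _, _, T, hT, ha⟩
    obtain ⟨M, hM⟩ := upper hT
    refine ha.trans (IsBigO.trans ?_ (succ_le (by linarith : 0 ≤ α)))
    apply IsBigO.of_bound M
    filter_upwards with n
    rw [norm_norm, Real.norm_of_nonneg (by positivity)]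
    exact hM n
  · intro ha
    obtain ⟨T, hT, hTn⟩ := attained.{u} hα
    refine ⟨HS.{u}, inferInstance, inferInstance, inferInstance, T, hT,
      ha.trans ((le_succ (by linarith : 0 ≤ α)).trans ?_)⟩
    apply IsBigO.of_bound 1
    filter_upwards with n
    rw [one_mul, norm_norm, Real.norm_of_nonneg (by positivity)]
    exact hTn n
  · rintro ⟨H, _, _, _, T, ⟨hs, c, hc, hT⟩, ha⟩
    have hc1 : (1 : ℝ) ≤ max c 1 := le_max_right _ _
    have hT' : ∀ z : ℂ, 1 < ‖z‖ → ‖z‖ ≤ 2 → ‖resolvent T z‖ ≤ max c 1 / (‖z‖ - 1) := by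
      intro z hz1 hz2
      have h2 := hT z hz1 hz2
      rw [Real.rpow_one] at h2
      refine h2.trans ?_
      have h3 : 0 < ‖z‖ - 1 := by linarith
      exact div_le_div_of_nonneg_right (le_max_left _ _) h3.le
    have hg0 := Helper57.KR.gain_pos (c := max c 1) (by linarith)
    have hg1 := Helper57.KR.gain_lt_one hc1
    refine ⟨Helper57.KR.gain (max c 1), hg0, ha.trans (IsBigO.trans ?_
      (succ_le (by linarith : 0 ≤ 1 - Helper57.KR.gain (max c 1))))⟩
    apply IsBigO.of_bound (13 * max c 1)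
    filter_upwards with n
    rw [norm_norm, Real.norm_of_nonneg (by positivity)]
    exact Helper57.KR.power_saving hc1 hs hT' n
  · rintro ⟨ε, hε, ha⟩
    have h0 : 0 < min ε (1 / 2) := lt_min hε (by norm_num)
    have h1 : min ε (1 / 2) < 1 := lt_of_le_of_lt (min_le_right _ _) (by norm_num)
    obtain ⟨T, hs, hR, hTn⟩ := Helper57.KR.example_exists.{u} h0 h1
    refine ⟨HS.{u}, inferInstance, inferInstance, inferInstance, T, ⟨hs, 64 / √(min ε (1 / 2)),
      by positivity, fun z hz1 hz2 => by rw [Real.rpow_one]; exact hR z hz1 hz2⟩,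
      ha.trans ?_⟩
    apply IsBigO.of_bound 1
    filter_upwards [eventually_ge_atTop 1] with n hn
    have hn' : (1 : ℝ) ≤ n := by exact_mod_cast hn
    rw [one_mul, norm_norm, Real.norm_of_nonneg (by positivity)]
    calc (n : ℝ) ^ (1 - ε) ≤ (n : ℝ) ^ (1 - min ε (1 / 2)) :=
          Real.rpow_le_rpow_of_exponent_le hn' (by have := min_le_left ε (1 / 2); linarith)
      _ ≤ (1 + (n : ℝ)) ^ (1 - min ε (1 / 2)) :=
          Real.rpow_le_rpow (by positivity) (by linarith) (by linarith)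
      _ ≤ ‖T ^ n‖ := hTn n

end Pool.Agent.Results.MP_45ac3c_an.GrowthOrders
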