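import Mathlib
import Pool.Agent.Helper57.KE.Fin2

namespace Pool.Agent.Results.MP_45ac3c_an.KreissPowerSaving

universe u

/-- Kreiss bounded operators on Hilbert space with Kreiss constant `c > 1`: the exact order of growth
of the powers is `n ^ (1 - (c - √(c² - 1))²)`. -/
theorem result (c : ℝ) (hc : 1 < c) :
    (∃ M : ℝ, ∀ (H : Type u) [NormedAddCommGroup H] [InnerProductSpace ℂ H] [CompleteSpace H]
      (T : H →L[ℂ] H), spectrum ℂ T ⊆ Metric.closedBall 0 1 →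
        (∀ z : ℂ, 1 < ‖z‖ → ‖z‖ ≤ 2 → ‖resolvent T z‖ ≤ c / (‖z‖ - 1)) →
        ∀ n : ℕ, ‖T ^ n‖ ≤ M * (1 + (n : ℝ)) ^ (1 - (c - √(c ^ 2 - 1)) ^ 2)) ∧
    (∃ (H : Type u) (_ : NormedAddCommGroup H) (_ : InnerProductSpace ℂ H) (_ : CompleteSpace H)
      (T : H →L[ℂ] H), spectrum ℂ T ⊆ Metric.closedBall 0 1 ∧
        (∀ z : ℂ, 1 < ‖z‖ → ‖z‖ ≤ 2 → ‖resolvent T z‖ ≤ c / (‖z‖ - 1)) ∧
        ∃ m : ℝ, 0 < m ∧
          ∀ n : ℕ, m * (1 + (n : ℝ)) ^ (1 - (c - √(c ^ 2 - 1)) ^ 2) ≤ ‖T ^ n‖) := by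
  refine ⟨Helper57.KE.upperF.{u} hc, ?_⟩
  obtain ⟨T, h1, h2, h3⟩ := Helper57.KE.lowerF.{u} hc
  exact ⟨Helper65.RG.HS.{u}, inferInstance, inferInstance, inferInstance, T, h1, h2, h3⟩

end Pool.Agent.Results.MP_45ac3c_an.KreissPowerSaving
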