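import Mathlib
import Pool.Agent.Helper65.RGDefs
import Pool.Agent.Helper65.RG7

namespace Pool.Agent.Results.MP_45ac3c_an.SharpGrowth

open Pool.Agent.Helper65.RG

universe u

/-- comparison of powers -/
lemma le_of_rpow_le {p q M : ℝ} (h : ∀ n : ℕ, (1 + (n : ℝ)) ^ p ≤ M * (1 + (n : ℝ)) ^ q) :
    p ≤ q := by
  by_contra hlt
  push Not at hlt
  have h1 : Filter.Tendsto (fun n : ℕ => (1 + (n : ℝ)) ^ (p - q)) Filter.atTop Filter.atTop := by
    have h2 : Filter.Tendsto (fun n : ℕ => (1 + (n : ℝ))) Filter.atTop Filter.atTop :=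
      Filter.tendsto_atTop_add_const_left _ _ tendsto_natCast_atTop_atTop
    exact (tendsto_rpow_atTop (by linarith : 0 < p - q)).comp h2
  obtain ⟨n, hn⟩ := (h1.eventually (Filter.eventually_gt_atTop M)).exists
  have hpos : (0 : ℝ) < 1 + (n : ℝ) := by positivity
  have h3 := h n
  rw [Real.rpow_sub hpos, lt_div_iff₀ (by positivity)] at hn
  linarith

/-- The sharp order of growth of the powers of Hilbert space operators under the resolvent
condition of order `α`. -/
theorem result :
    (∀ α : ℝ, 1 ≤ α → optimalExponent.{u} α = α) ∧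
    (∀ α : ℝ, 1 < α → ∃ (H : Type u) (_ : NormedAddCommGroup H) (_ : InnerProductSpace ℂ H)
      (_ : CompleteSpace H) (T : H →L[ℂ] H), ResolventCondition α T ∧
        ∀ n : ℕ, (1 + (n : ℝ)) ^ α ≤ ‖T ^ n‖) ∧
    (∀ α : ℝ, 1 ≤ α → ∀ (H : Type u) [NormedAddCommGroup H] [InnerProductSpace ℂ H]
      [CompleteSpace H] (T : H →L[ℂ] H), ResolventCondition α T →
        ∃ M : ℝ, ∀ n : ℕ, ‖T ^ n‖ ≤ M * (1 + (n : ℝ)) ^ α) := by
  refine ⟨?_, ?_, ?_⟩
  · intro α hα
    apply IsLeast.csInf_eq
    constructor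
    · exact ⟨by linarith, fun H _ _ _ T hT => upper hT⟩
    · rintro γ ⟨_, hγ⟩
      rcases eq_or_lt_of_le hα with h1 | h1
      · subst h1
        by_contra hlt
        push Not at hlt
        set g := max ((γ + 1) / 2) (1 / 2) with hg
        have hg0 : 0 < g := lt_of_lt_of_le (by norm_num) (le_max_right _ _)
        have hg1 : g < 1 := max_lt (by linarith) (by norm_num)
        have hgγ : γ < g := lt_of_lt_of_le (by linarith) (le_max_left _ _)
        obtain ⟨T, hT, hTn⟩ := attained_one.{u} hg0 hg1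
        obtain ⟨M, hM⟩ := hγ _ T hT
        have := le_of_rpow_le (p := g) (q := γ) (M := M) (fun n => le_trans (hTn n) (hM n))
        linarith
      · obtain ⟨T, hT, hTn⟩ := attained.{u} h1
        obtain ⟨M, hM⟩ := hγ _ T hT
        exact le_of_rpow_le (p := α) (q := γ) (M := M) (fun n => le_trans (hTn n) (hM n))
  · intro α hα
    obtain ⟨T, hT, hTn⟩ := attained.{u} hα
    exact ⟨HS.{u}, inferInstance, inferInstance, inferInstance, T, hT, hTn⟩
  · intro α _ H _ _ _ T hT
    exact upper hT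

end Pool.Agent.Results.MP_45ac3c_an.SharpGrowth
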